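import Mathlib

/-! # Homogeneous non-Hausdorff one-dimensional manifolds -/

set_option autoImplicit false

namespace Pool.Agent.Results.MP_e9190d_gt.DimensionOne

open Cardinal Topology Set Filter

/-- `M` is a `1`-manifold, not necessarily Hausdorff: it is connected and every point lies in the
image of an open embedding of `ℝ`. -/
def IsOneMfd (M : Type) [TopologicalSpace M] : Prop :=
  ConnectedSpace M ∧ ∀ x : M, ∃ ψ : ℝ → M, IsOpenEmbedding ψ ∧ x ∈ Set.range ψ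

/-- `M` is homogeneous. -/
def Homogeneous (M : Type) [TopologicalSpace M] : Prop :=
  ∀ x y : M, ∃ h : M ≃ₜ M, h x = y

/-- `x` and `y` are different and cannot be separated by disjoint open sets. -/
def NonSep {M : Type} [TopologicalSpace M] (x y : M) : Prop :=
  x ≠ y ∧ ∀ U V : Set M, IsOpen U → IsOpen V → x ∈ U → y ∈ V → (U ∩ V).Nonempty

/-- `M` is a homogeneous non-Hausdorff `1`-manifold. -/
def IsHNHOne (M : Type) [TopologicalSpace M] : Prop :=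
  IsOneMfd M ∧ Homogeneous M ∧ ∃ x y : M, NonSep x y

/-- The least cardinality of a cover of `M` by open sets which are Hausdorff subspaces. -/
noncomputable def OH (M : Type) [TopologicalSpace M] : Cardinal.{0} :=
  sInf {κ | ∃ 𝒰 : Set (Set M), #𝒰 = κ ∧ (∀ U ∈ 𝒰, IsOpen U ∧ T2Space U) ∧ ⋃₀ 𝒰 = Set.univ}

/-- the lift of a path through a chart -/
lemma continuousOn_lift {M : Type} [TopologicalSpace M] {φ ψ : ℝ → M} (hψ : IsOpenEmbedding ψ)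
    {g : ℝ → ℝ} {s : Set ℝ} (hg : ∀ t ∈ s, ψ (g t) = φ t) (hφ : Continuous φ) :
    ContinuousOn g s := by
  rw [hψ.isInducing.continuousOn_iff]
  exact hφ.continuousOn.congr (fun t ht => hg t ht)

lemma oneSided_aux {M : Type} [TopologicalSpace M] (φ ψ : ℝ → M) (hφ : IsOpenEmbedding φ)
    (hψ : IsOpenEmbedding ψ) (s z r : ℝ) (hsz : s < z) (hs : φ s ∉ ψ '' Ioo (r - 1) (r + 1))
    (hz : φ z ∈ ψ '' Ioo (r - 1) (r + 1))
    (hS : ∀ t ∈ Icc s z, φ t ≠ ψ (r - 1) ∧ φ t ≠ ψ (r + 1)) :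
    ∃ (a : ℝ) (y : M), φ a ≠ y ∧ Tendsto φ (𝓝[>] a) (𝓝 y) := by
  classical
  set K : Set ℝ := Icc s z ∩ (φ ⁻¹' (ψ '' Ioo (r - 1) (r + 1)))ᶜ with hK
  have hop : IsOpen (φ ⁻¹' (ψ '' Ioo (r - 1) (r + 1))) :=
    (hψ.isOpenMap _ isOpen_Ioo).preimage hφ.continuous
  have hKc : IsCompact K := isCompact_Icc.inter_right hop.isClosed_compl
  have hKne : K.Nonempty := ⟨s, ⟨le_refl _, hsz.le⟩, hs⟩
  have haK := hKc.sSup_mem hKne
  set a := sSup K with ha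
  have haz : a < z := by
    refine lt_of_le_of_ne haK.1.2 (fun h => haK.2 ?_)
    rw [h]
    exact hz
  have hin : ∀ t ∈ Ioo a z, φ t ∈ ψ '' Ioo (r - 1) (r + 1) := by
    intro t ht
    by_contra hcon
    have h1 : t ∈ K := ⟨⟨haK.1.1.trans ht.1.le, ht.2.le⟩, hcon⟩
    exact absurd (le_csSup hKc.bddAbove h1) (not_le.mpr ht.1)
  choose! g hg1 hg2 using hin
  have hgc : ContinuousOn g (Ioo a z) := continuousOn_lift hψ hg2 hφ.continuous
  have hgi : InjOn g (Ioo a z) := by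
    intro t ht t' ht' h
    apply hφ.injective
    rw [← hg2 t ht, ← hg2 t' ht', h]
  have hne : (Ioo a z).Nonempty := nonempty_Ioo.mpr haz
  have hL : ∃ L, Tendsto g (𝓝[>] a) (𝓝 L) := by
    rcases hgc.strictMonoOn_of_injOn_Ioo haz hgi with h | h
    · refine ⟨_, MonotoneOn.tendsto_nhdsWithin_Ioo_right hne h.monotoneOn ⟨r - 1, ?_⟩⟩
      rintro _ ⟨t, ht, rfl⟩
      exact (hg1 t ht).1.le
    · refine ⟨_, AntitoneOn.tendsto_nhdsWithin_Ioo_right hne h.antitoneOn ⟨r + 1, ?_⟩⟩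
      rintro _ ⟨t, ht, rfl⟩
      exact (hg1 t ht).2.le
  obtain ⟨L, hL⟩ := hL
  have hev : ∀ᶠ t in 𝓝[>] a, t ∈ Ioo a z := Ioo_mem_nhdsGT haz
  have hLm : L ∈ Icc (r - 1) (r + 1) := by
    refine isClosed_Icc.mem_of_tendsto hL ?_
    filter_upwards [hev] with t ht
    exact ⟨(hg1 t ht).1.le, (hg1 t ht).2.le⟩
  refine ⟨a, ψ L, ?_, ?_⟩
  · intro h
    rcases eq_or_lt_of_le hLm.1 with h1 | h1
    · rw [← h1] at h
      exact (hS a haK.1).1 h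
    · rcases eq_or_lt_of_le hLm.2 with h2 | h2
      · rw [h2] at h
        exact (hS a haK.1).2 h
      · exact haK.2 ⟨L, ⟨h1, h2⟩, h.symm⟩
  · refine ((hψ.continuous.tendsto L).comp hL).congr' ?_
    filter_upwards [hev] with t ht
    exact hg2 t ht

lemma exists_oneSided {M : Type} [TopologicalSpace M] (hM : IsOneMfd M) {x y : M}
    (hxy : NonSep x y) :
    ∃ (φ : ℝ → M) (a : ℝ) (y' : M), IsOpenEmbedding φ ∧ φ a ≠ y' ∧
      Tendsto φ (𝓝[>] a) (𝓝 y') := by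
  obtain ⟨φ, hφ, s, hs⟩ := hM.2 x
  obtain ⟨ψ, hψ, r, hr⟩ := hM.2 y
  have hx : ∀ q, ψ q ≠ φ s := by
    intro q hq
    have hqr : q ≠ r := by
      rintro rfl
      exact hxy.1 (by rw [← hs, ← hr, hq])
    obtain ⟨A, B, hA, hB, hqA, hrB, hAB⟩ := t2_separation hqr
    obtain ⟨w, ⟨t, ht, rfl⟩, ⟨t', ht', h⟩⟩ := hxy.2 (ψ '' A) (ψ '' B) (hψ.isOpenMap A hA)
      (hψ.isOpenMap B hB) ⟨q, hqA, by rw [hq, hs]⟩ ⟨r, hrB, hr⟩
    rw [hψ.injective h] at ht'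
    exact Set.disjoint_left.mp hAB ht ht'
  have hfin : (φ ⁻¹' {ψ (r - 1), ψ (r + 1)}).Finite :=
    Set.Finite.preimage hφ.injective.injOn (Set.toFinite _)
  have hsm : s ∈ (φ ⁻¹' {ψ (r - 1), ψ (r + 1)})ᶜ := by
    rintro (h | h)
    · exact hx _ h.symm
    · exact hx _ (Set.mem_singleton_iff.mp h).symm
  obtain ⟨δ, hδ, hball⟩ := Metric.isOpen_iff.mp hfin.isClosed.isOpen_compl s hsm
  obtain ⟨w, ⟨z, hz, rfl⟩, hz2⟩ := hxy.2 (φ '' Metric.ball s δ) (ψ '' Ioo (r - 1) (r + 1))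
    (hφ.isOpenMap _ Metric.isOpen_ball) (hψ.isOpenMap _ isOpen_Ioo)
    ⟨s, Metric.mem_ball_self hδ, hs⟩ ⟨r, ⟨by linarith, by linarith⟩, hr⟩
  have hs' : φ s ∉ ψ '' Ioo (r - 1) (r + 1) := by
    rintro ⟨q, -, hq⟩
    exact hx q hq
  have hgood : ∀ t, |t - s| < δ → φ t ≠ ψ (r - 1) ∧ φ t ≠ ψ (r + 1) := by
    intro t ht
    have h1 := hball (show t ∈ Metric.ball s δ by rw [Metric.mem_ball, Real.dist_eq]; exact ht)
    refine ⟨fun h => h1 (Or.inl h), fun h => h1 (Or.inr h)⟩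
  rw [Metric.mem_ball, Real.dist_eq] at hz
  rcases lt_trichotomy s z with h | h | h
  · obtain ⟨a, y', h1, h2⟩ := oneSided_aux φ ψ hφ hψ s z r h hs' hz2 (by
      intro t ht
      refine hgood t ?_
      rw [abs_lt] at hz ⊢
      constructor <;> linarith [ht.1, ht.2, hz.1, hz.2])
    exact ⟨φ, a, y', hφ, h1, h2⟩
  · rw [← h] at hz2
    exact absurd hz2 hs'
  · have hneg : IsOpenEmbedding (fun t : ℝ => φ (-t)) :=
      hφ.comp (Homeomorph.neg ℝ).isOpenEmbedding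
    obtain ⟨a, y', h1, h2⟩ := oneSided_aux (fun t => φ (-t)) ψ hneg hψ (-s) (-z) r (by linarith)
      (by simpa using hs') (by simpa using hz2) (by
      intro t ht
      refine hgood (-t) ?_
      rw [abs_lt] at hz ⊢
      constructor <;> linarith [ht.1, ht.2, hz.1, hz.2])
    exact ⟨_, a, y', hneg, h1, h2⟩

/-- every point of a chart is an end of a gap -/
lemma exists_endpoint {M : Type} [TopologicalSpace M] (hh : Homogeneous M) (φ : ℝ → M) (a : ℝ)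
    (y : M) (hφ : Continuous φ) (hay : φ a ≠ y) (hlim : Tendsto φ (𝓝[>] a) (𝓝 y))
    (ψ : ℝ → M) (hψ : IsOpenEmbedding ψ) (𝒰 : Set (Set M))
    (h𝒰 : ∀ U ∈ 𝒰, IsOpen U ∧ T2Space U) (hcov : ⋃₀ 𝒰 = Set.univ) (p : ℝ) :
    ∃ U ∈ 𝒰, p ∉ ψ ⁻¹' U ∧ ((∃ c, p < c ∧ Ioo p c ⊆ ψ ⁻¹' U) ∨ (∃ c, c < p ∧ Ioo c p ⊆ ψ ⁻¹' U)) := by
  obtain ⟨h, hh⟩ := hh (φ a) (ψ p)
  have hyU : h y ∈ ⋃₀ 𝒰 := by rw [hcov]; trivial
  obtain ⟨U, hU, hyU⟩ := hyU
  obtain ⟨hop, hT2⟩ := h𝒰 U hU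
  have hlim' : Tendsto (fun t => h (φ t)) (𝓝[>] a) (𝓝 (h y)) := (h.continuous.tendsto y).comp hlim
  have hc' : Continuous (fun t => h (φ t)) := h.continuous.comp hφ
  have hp : p ∉ ψ ⁻¹' U := by
    intro hpU
    have hne : (⟨ψ p, hpU⟩ : U) ≠ ⟨h y, hyU⟩ := by
      intro he
      have h1 : ψ p = h y := congrArg Subtype.val he
      rw [← hh] at h1
      exact hay (h.injective h1)
    obtain ⟨A, B, hA, hB, hpA, hyB, hAB⟩ := t2_separation hne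
    have hA' : IsOpen (Subtype.val '' A : Set M) := hop.isOpenMap_subtype_val A hA
    have hB' : IsOpen (Subtype.val '' B : Set M) := hop.isOpenMap_subtype_val B hB
    have e1 : ∀ᶠ t in 𝓝[>] a, h (φ t) ∈ (Subtype.val '' A : Set M) := by
      have h1 : Tendsto (fun t => h (φ t)) (𝓝[>] a) (𝓝 (h (φ a))) :=
        (hc'.tendsto a).mono_left nhdsWithin_le_nhds
      refine h1.eventually (hA'.mem_nhds ?_)
      rw [hh]
      exact ⟨_, hpA, rfl⟩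
    have e2 : ∀ᶠ t in 𝓝[>] a, h (φ t) ∈ (Subtype.val '' B : Set M) :=
      hlim'.eventually (hB'.mem_nhds ⟨_, hyB, rfl⟩)
    obtain ⟨t, ⟨u, hu, hu2⟩, ⟨v, hv, hv2⟩⟩ := (e1.and e2).exists
    have huv : u = v := Subtype.ext (hu2.trans hv2.symm)
    rw [huv] at hu
    exact Set.disjoint_left.mp hAB hu hv
  have e3 : ∀ᶠ t in 𝓝[>] a, h (φ t) ∈ U := hlim'.eventually (hop.mem_nhds hyU)
  have e4 : ∀ᶠ t in 𝓝[>] a, h (φ t) ∈ range ψ := by
    have h1 : Tendsto (fun t => h (φ t)) (𝓝[>] a) (𝓝 (h (φ a))) :=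
      (hc'.tendsto a).mono_left nhdsWithin_le_nhds
    refine h1.eventually (hψ.isOpen_range.mem_nhds ?_)
    rw [hh]
    exact ⟨p, rfl⟩
  obtain ⟨b, hb, hab⟩ := (mem_nhdsGT_iff_exists_Ioo_subset' (show a < a + 1 by linarith)).mp
    (e3.and e4)
  have hb : a < b := hb
  set m := (a + b) / 2 with hm
  have ham : a < m := by rw [hm]; linarith
  have hmb : m < b := by rw [hm]; linarith
  have hex : ∀ t ∈ Icc a m, ∃ q, ψ q = h (φ t) := by
    intro t ht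
    rcases eq_or_lt_of_le ht.1 with h1 | h1
    · exact ⟨p, by rw [← h1, hh]⟩
    · exact (hab ⟨h1, ht.2.trans_lt hmb⟩).2
  choose! G hG using hex
  have hGc : ContinuousOn G (Icc a m) := continuousOn_lift hψ hG hc'
  have hGa : G a = p := by
    apply hψ.injective
    rw [hG a ⟨le_refl _, ham.le⟩, hh]
  have hGU : ∀ t ∈ Icc a m, G t ≠ p → ψ (G t) ∈ U := by
    intro t ht hne
    rw [hG t ht]
    rcases eq_or_lt_of_le ht.1 with h1 | h1
    · rw [← h1] at hne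
      exact absurd hGa hne
    · exact (hab ⟨h1, ht.2.trans_lt hmb⟩).1
  have hGm : ψ (G m) ∈ U := by
    rw [hG m ⟨ham.le, le_refl _⟩]
    exact (hab ⟨ham, hmb⟩).1
  refine ⟨U, hU, hp, ?_⟩
  rcases lt_trichotomy p (G m) with h1 | h1 | h1
  · refine Or.inl ⟨G m, h1, ?_⟩
    intro q hq
    obtain ⟨t, ht, rfl⟩ := intermediate_value_Icc ham.le hGc (show q ∈ Icc (G a) (G m) from
      ⟨by rw [hGa]; exact hq.1.le, hq.2.le⟩)
    exact hGU t ht (ne_of_gt hq.1)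
  · rw [← h1] at hGm
    exact absurd hGm hp
  · refine Or.inr ⟨G m, h1, ?_⟩
    intro q hq
    obtain ⟨t, ht, rfl⟩ := intermediate_value_Icc' ham.le hGc (show q ∈ Icc (G m) (G a) from
      ⟨hq.1.le, by rw [hGa]; exact hq.2.le⟩)
    exact hGU t ht (ne_of_lt hq.2)

lemma countable_right (W : Set ℝ) : {p | p ∉ W ∧ ∃ c, p < c ∧ Ioo p c ⊆ W}.Countable := by
  have hch : ∀ p ∈ {p | p ∉ W ∧ ∃ c, p < c ∧ Ioo p c ⊆ W}, ∃ c, p < c ∧ Ioo p c ⊆ W :=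
    fun p hp => hp.2
  choose! c hc1 hc2 using hch
  have key : ∀ p ∈ {p | p ∉ W ∧ ∃ c, p < c ∧ Ioo p c ⊆ W},
      ∀ q ∈ {p | p ∉ W ∧ ∃ c, p < c ∧ Ioo p c ⊆ W}, p < q → c p ≤ q := by
    intro p hp q hq hpq
    by_contra hcon
    exact hq.1 (hc2 p hp ⟨hpq, not_le.mp hcon⟩)
  refine Set.PairwiseDisjoint.countable_of_Ioo (y := c) ?_ (fun p hp => hc1 p hp)
  intro p hp q hq hpq
  rw [Function.onFun, Set.disjoint_left]
  rintro t ⟨h1, h2⟩ ⟨h3, h4⟩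
  rcases lt_or_gt_of_ne hpq with h | h
  · linarith [key p hp q hq h]
  · linarith [key q hq p hp h]

lemma countable_left (W : Set ℝ) : {p | p ∉ W ∧ ∃ c, c < p ∧ Ioo c p ⊆ W}.Countable := by
  refine ((countable_right ((fun t : ℝ => -t) ⁻¹' W)).image (fun t : ℝ => -t)).mono ?_
  rintro p ⟨hp, c, hc, hcW⟩
  refine ⟨-p, ⟨by simpa using hp, -c, by linarith, ?_⟩, by simp⟩
  intro t ht
  exact hcW ⟨by linarith [ht.2], by linarith [ht.1]⟩

/-- **A homogeneous non-Hausdorff `1`-manifold is never the union of fewer than continuum many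
Hausdorff open subsets.** -/
theorem result (M : Type) [TopologicalSpace M] (hM : IsHNHOne M) : 𝔠 ≤ OH M := by
  obtain ⟨hmf, hh, x, y, hxy⟩ := hM
  obtain ⟨φ, a, y', hφ, hay, hlim⟩ := exists_oneSided hmf hxy
  have hne : {κ : Cardinal.{0} | ∃ 𝒰 : Set (Set M), #𝒰 = κ ∧ (∀ U ∈ 𝒰, IsOpen U ∧ T2Space U) ∧
      ⋃₀ 𝒰 = Set.univ}.Nonempty := by
    refine ⟨_, {U | IsOpen U ∧ T2Space U}, rfl, fun U hU => hU, ?_⟩
    rw [Set.eq_univ_iff_forall]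
    intro x
    obtain ⟨φ, hφ, hx⟩ := hmf.2 x
    refine ⟨Set.range φ, ⟨hφ.isOpen_range, ?_⟩, hx⟩
    exact (hφ.toIsEmbedding.toHomeomorph).t2Space
  obtain ⟨𝒰, hc, h1, h2⟩ := csInf_mem hne
  change 𝔠 ≤ sInf _
  rw [← hc]
  by_contra hlt
  rw [not_le] at hlt
  let E : 𝒰 → Set ℝ := fun U => {p | p ∉ φ ⁻¹' (U : Set M) ∧ ∃ c, p < c ∧ Ioo p c ⊆ φ ⁻¹' (U : Set M)} ∪
    {p | p ∉ φ ⁻¹' (U : Set M) ∧ ∃ c, c < p ∧ Ioo c p ⊆ φ ⁻¹' (U : Set M)}
  have hE : ∀ U, #(E U) ≤ ℵ₀ := fun U =>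
    Cardinal.le_aleph0_iff_set_countable.mpr ((countable_right _).union (countable_left _))
  have hcovE : (⋃ U, E U) = Set.univ := by
    rw [Set.eq_univ_iff_forall]
    intro p
    obtain ⟨U, hU, hp, h | h⟩ := exists_endpoint hh φ a y' hφ.continuous hay hlim φ hφ 𝒰 h1 h2 p
    · exact Set.mem_iUnion.mpr ⟨⟨U, hU⟩, Or.inl ⟨hp, h⟩⟩
    · exact Set.mem_iUnion.mpr ⟨⟨U, hU⟩, Or.inr ⟨hp, h⟩⟩
  have h3 : 𝔠 ≤ #𝒰 * ℵ₀ := by
    calc 𝔠 = #(Set.univ : Set ℝ) := by rw [Cardinal.mk_univ_real]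
      _ = #(⋃ U, E U) := by rw [hcovE]
      _ ≤ #𝒰 * ⨆ U, #(E U) := Cardinal.mk_iUnion_le E
      _ ≤ #𝒰 * ℵ₀ := mul_le_mul_right (ciSup_le' hE) _
  exact absurd h3 (not_le.mpr (Cardinal.mul_lt_of_lt Cardinal.aleph0_le_continuum hlt
    Cardinal.aleph0_lt_continuum))

end Pool.Agent.Results.MP_e9190d_gt.DimensionOne
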